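import Pool.Agent.X157.FacetsB

set_option autoImplicit false

/-! The f-vector `(12, 20)` occurs for the rotation group of the tetrahedron, but not for its full
symmetry group. -/

namespace Pool.Agent.Results.MP_52b7e0_co.RotationalTetrahedral

open Set Matrix Pool.Agent.X157.CP Pool.Agent.X157.Facets

/-- the four vertices of a regular tetrahedron centred at the origin, in integers -/
def tetZ : Fin 4 → Z3 := ![(1, 1, 1), (1, -1, -1), (-1, 1, -1), (-1, -1, 1)]

/-- the four vertices `(1,1,1), (1,-1,-1), (-1,1,-1), (-1,-1,1)` -/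
def tet (i : Fin 4) : R3 := toR (tetZ i)

/-- the full symmetry group of the tetrahedron -/
def That : Set (Matrix (Fin 3) (Fin 3) ℝ) :=
  {A | A ∈ Matrix.orthogonalGroup (Fin 3) ℝ ∧ (fun x : R3 => A *ᵥ x) '' range tet = range tet}

/-- the rotation group of the tetrahedron -/
def T : Set (Matrix (Fin 3) (Fin 3) ℝ) := {A | A ∈ That ∧ A.det = 1}

/-- the set of the pairs (number of vertices, number of facets) of the `G`-symmetric 3-polytopes -/
def F (G : Set (Matrix (Fin 3) (Fin 3) ℝ)) : Set (ℕ × ℕ) :=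
  {f | ∃ P : Set R3, IsPoly3 P ∧ (∀ A ∈ G, (fun x : R3 => A *ᵥ x) '' P = P) ∧
    (P.extremePoints ℝ).ncard = f.1 ∧ (facets P).ncard = f.2}

/-! ### The polytope with rotational symmetry -/

def V0 : List Z3 := [(0, 1, 2), (0, 1, -2), (0, -1, 2), (0, -1, -2), (1, 2, 0), (1, -2, 0),
  (-1, 2, 0), (-1, -2, 0), (2, 0, 1), (-2, 0, 1), (2, 0, -1), (-2, 0, -1)]

def M0 : List (Z3 × ℤ) := [((1, 1, 1), 3), ((1, 1, -1), 3), ((1, -1, 1), 3), ((1, -1, -1), 3),
  ((-1, 1, 1), 3), ((-1, 1, -1), 3), ((-1, -1, 1), 3), ((-1, -1, -1), 3), ((1, 0, 2), 4),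
  ((2, 1, 0), 4), ((0, 2, 1), 4), ((1, 0, -2), 4), ((-2, 1, 0), 4), ((0, -2, 1), 4),
  ((-1, 0, 2), 4), ((2, -1, 0), 4), ((0, 2, -1), 4), ((-1, 0, -2), 4), ((-2, -1, 0), 4),
  ((0, -2, -1), 4)]

lemma cert0 : FacetCert V0 M0 where
  le := by decide +kernel
  two := by decide +kernel
  strict := by decide +kernel
  all := by decide +kernel
  dist := by decide +kernel

lemma exp0 : ExpCert V0 := by unfold ExpCert; decide +kernel

/-- twice the image of the `k`-th basis vector -/
def addZ (a b : Z3) : Z3 := (a.1 + b.1, a.2.1 + b.2.1, a.2.2 + b.2.2)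
def halfZ (a : Z3) : Z3 := (a.1 / 2, a.2.1 / 2, a.2.2 / 2)
def combZ (v a b c : Z3) : Z3 := (v.1 * a.1 + v.2.1 * b.1 + v.2.2 * c.1,
  v.1 * a.2.1 + v.2.1 * b.2.1 + v.2.2 * c.2.1, v.1 * a.2.2 + v.2.1 * b.2.2 + v.2.2 * c.2.2)

lemma check0 : ∀ a b c d : Fin 4, a ≠ b → a ≠ c → a ≠ d → b ≠ c → b ≠ d → c ≠ d →
    dotZ (halfZ (addZ (tetZ a) (tetZ b))) (crossZ (halfZ (addZ (tetZ a) (tetZ c)))
      (halfZ (addZ (tetZ a) (tetZ d)))) = 1 →
    ∀ v ∈ V0, combZ v (halfZ (addZ (tetZ a) (tetZ b))) (halfZ (addZ (tetZ a) (tetZ c)))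
      (halfZ (addZ (tetZ a) (tetZ d))) ∈ V0 := by decide +kernel

lemma check1 : ∀ a b : Fin 4, addZ (tetZ a) (tetZ b) =
    addZ (halfZ (addZ (tetZ a) (tetZ b))) (halfZ (addZ (tetZ a) (tetZ b))) := by decide +kernel

lemma toR_add (a b : Z3) : toR (addZ a b) = toR a + toR b := by
  funext i
  fin_cases i <;> simp [toR, addZ]

lemma toR_comb (v a b c : Z3) : toR (combZ v a b c) =
    (v.1 : ℝ) • toR a + (v.2.1 : ℝ) • toR b + (v.2.2 : ℝ) • toR c := by
  funext i
  fin_cases i <;> simp [toR, combZ]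

lemma half_spec (a b : Fin 4) : toR (halfZ (addZ (tetZ a) (tetZ b))) =
    (1 / 2 : ℝ) • (tet a + tet b) := by
  have h := congrArg toR (check1 a b)
  rw [toR_add, toR_add] at h
  show _ = (1 / 2 : ℝ) • (toR (tetZ a) + toR (tetZ b))
  rw [h]
  module

lemma tet0 : tet 0 = ![1, 1, 1] := by
  show toR (1, 1, 1) = _
  simp [toR]
lemma tet1 : tet 1 = ![1, -1, -1] := by
  show toR (1, -1, -1) = _
  simp [toR]
lemma tet2 : tet 2 = ![-1, 1, -1] := by
  show toR (-1, 1, -1) = _
  simp [toR]
lemma tet3 : tet 3 = ![-1, -1, 1] := by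
  show toR (-1, -1, 1) = _
  simp [toR]

lemma basis_spec (k : Fin 3) : (Pi.single k (1 : ℝ) : R3) = (1 / 2 : ℝ) • (tet 0 + tet k.succ) := by
  fin_cases k
  · show (Pi.single 0 (1 : ℝ) : R3) = (1 / 2 : ℝ) • (tet 0 + tet 1)
    rw [tet0, tet1]
    funext i
    fin_cases i <;> norm_num [Pi.single_apply]
  · show (Pi.single 1 (1 : ℝ) : R3) = (1 / 2 : ℝ) • (tet 0 + tet 2)
    rw [tet0, tet2]
    funext i
    fin_cases i <;> norm_num [Pi.single_apply]
  · show (Pi.single 2 (1 : ℝ) : R3) = (1 / 2 : ℝ) • (tet 0 + tet 3)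
    rw [tet0, tet3]
    funext i
    fin_cases i <;> norm_num [Pi.single_apply]
    all_goals first | rfl | decide

lemma injective_of_orth {A : Matrix (Fin 3) (Fin 3) ℝ} (hA : A ∈ Matrix.orthogonalGroup (Fin 3) ℝ) :
    Function.Injective (fun x : R3 => A *ᵥ x) := by
  rw [mem_orthogonalGroup_iff'] at hA
  intro x y hxy
  have h1 : Aᵀ *ᵥ (A *ᵥ x) = Aᵀ *ᵥ (A *ᵥ y) := congrArg (fun z => Aᵀ *ᵥ z) hxy
  rw [mulVec_mulVec, mulVec_mulVec, hA, one_mulVec, one_mulVec] at h1
  exact h1

lemma tetZ_injective : Function.Injective tetZ := by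
  intro a b h
  revert a b
  decide +kernel

lemma tet_injective : Function.Injective tet := toR_injective.comp tetZ_injective

lemma image_V0 {A : Matrix (Fin 3) (Fin 3) ℝ} (hA : A ∈ T) :
    (fun x : R3 => A *ᵥ x) '' (toR '' {v | v ∈ V0}) ⊆ toR '' {v | v ∈ V0} := by
  obtain ⟨⟨horth, himg⟩, hdet⟩ := hA
  have hinj := injective_of_orth horth
  have hσ : ∀ i, ∃ j, tet j = A *ᵥ tet i := by
    intro i
    have : A *ᵥ tet i ∈ (fun x : R3 => A *ᵥ x) '' range tet := ⟨tet i, ⟨i, rfl⟩, rfl⟩
    rw [himg] at this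
    exact this
  choose σ hσ using hσ
  have hne : ∀ i j, i ≠ j → σ i ≠ σ j := by
    intro i j hij h
    apply hij
    apply tet_injective
    apply hinj
    show A *ᵥ tet i = A *ᵥ tet j
    rw [← hσ, ← hσ, h]
  have hcol : ∀ k : Fin 3, A *ᵥ Pi.single k 1 =
      toR (halfZ (addZ (tetZ (σ 0)) (tetZ (σ k.succ)))) := by
    intro k
    rw [basis_spec, mulVec_smul, mulVec_add, half_spec, hσ, hσ]
  have hAt : Aᵀ = ![toR (halfZ (addZ (tetZ (σ 0)) (tetZ (σ 1)))),
      toR (halfZ (addZ (tetZ (σ 0)) (tetZ (σ 2)))), toR (halfZ (addZ (tetZ (σ 0)) (tetZ (σ 3))))] := by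
    funext k i
    have h1 : (A *ᵥ Pi.single k 1) i = A i k := by simp
    show A i k = _
    rw [← h1, hcol k]
    fin_cases k <;> rfl
  have hdet2 : dotZ (halfZ (addZ (tetZ (σ 0)) (tetZ (σ 1))))
      (crossZ (halfZ (addZ (tetZ (σ 0)) (tetZ (σ 2)))) (halfZ (addZ (tetZ (σ 0)) (tetZ (σ 3))))) = 1 := by
    rw [← det_transpose, hAt, ← triple_product_eq_det, ← toR_cross, toR_dot] at hdet
    exact_mod_cast hdet
  rintro _ ⟨_, ⟨v, hv, rfl⟩, rfl⟩
  refine ⟨_, check0 (σ 0) (σ 1) (σ 2) (σ 3) (hne _ _ (by decide)) (hne _ _ (by decide))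
    (hne _ _ (by decide)) (hne _ _ (by decide)) (hne _ _ (by decide)) (hne _ _ (by decide)) hdet2 v hv, ?_⟩
  rw [toR_comb]
  have hv : toR v = (v.1 : ℝ) • (Pi.single 0 1 : R3) + (v.2.1 : ℝ) • (Pi.single 1 1 : R3) +
      (v.2.2 : ℝ) • (Pi.single 2 1 : R3) := by
    funext i
    fin_cases i <;> simp [toR, Pi.single_apply]
  show _ = A *ᵥ toR v
  rw [hv, mulVec_add, mulVec_add, mulVec_smul, mulVec_smul, mulVec_smul, hcol, hcol, hcol]
  rfl

lemma image_hull (A : Matrix (Fin 3) (Fin 3) ℝ) (S : Set R3) :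
    (fun x : R3 => A *ᵥ x) '' convexHull ℝ S = convexHull ℝ ((fun x : R3 => A *ᵥ x) '' S) :=
  (Matrix.mulVecLin A).image_convexHull S

theorem mem_T : ((12, 20) : ℕ × ℕ) ∈ F T := by
  refine ⟨hullZ V0, ?_, ?_, ?_, ?_⟩
  · apply isPoly3_hullZ
    decide +kernel
  · intro A hA
    have hfin : (toR '' {v | v ∈ V0}).Finite := (List.finite_toSet V0).image _
    have heq : (fun x : R3 => A *ᵥ x) '' (toR '' {v | v ∈ V0}) = toR '' {v | v ∈ V0} := by
      apply eq_of_subset_of_ncard_le (image_V0 hA) _ hfin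
      rw [(injective_of_orth hA.1.1).injOn.ncard_image]
    have hset : {x | ∃ v ∈ V0, x = toR v} = toR '' {v | v ∈ V0} := by
      ext x
      constructor
      · rintro ⟨v, hv, rfl⟩; exact ⟨v, hv, rfl⟩
      · rintro ⟨v, hv, rfl⟩; exact ⟨v, hv, rfl⟩
    unfold hullZ
    rw [image_hull, hset, heq]
  · rw [ncard_extremePoints (by decide +kernel) exp0]
    rfl
  · rw [ncard_facets cert0]
    rfl

/-! ### The full symmetry group -/

/-- the four coordinates of a point with respect to the tetrahedron -/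
def q (x : R3) : Fin 4 → ℝ := fun i => tet i ⬝ᵥ x

lemma q0 (x : R3) : q x 0 = x 0 + x 1 + x 2 := by
  simp [q, tet, tetZ, toR, dotProduct, Fin.sum_univ_three]
lemma q1 (x : R3) : q x 1 = x 0 - x 1 - x 2 := by
  simp [q, tet, tetZ, toR, dotProduct, Fin.sum_univ_three]; ring
lemma q2 (x : R3) : q x 2 = - x 0 + x 1 - x 2 := by
  simp [q, tet, tetZ, toR, dotProduct, Fin.sum_univ_three]; ring
lemma q3 (x : R3) : q x 3 = - x 0 - x 1 + x 2 := by
  simp [q, tet, tetZ, toR, dotProduct, Fin.sum_univ_three]; ring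

lemma q_sum (x : R3) : ∑ i, q x i = 0 := by
  rw [Fin.sum_univ_four, q0, q1, q2, q3]; ring

lemma q_inner (x y : R3) : ∑ i, q x i * q y i = 4 * (x ⬝ᵥ y) := by
  rw [Fin.sum_univ_four, q0, q1, q2, q3, q0, q1, q2, q3]
  simp [dotProduct, Fin.sum_univ_three]
  ring

lemma q_injective : Function.Injective q := by
  intro x y h
  have h0 := congrFun h 0
  have h1 := congrFun h 1
  have h2 := congrFun h 2
  have h3 := congrFun h 3
  rw [q0, q0] at h0
  rw [q1, q1] at h1
  rw [q2, q2] at h2
  rw [q3, q3] at h3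
  funext i
  fin_cases i
  · show x 0 = y 0
    linarith
  · show x 1 = y 1
    linarith
  · show x 2 = y 2
    linarith

lemma q_smul (t : ℝ) (x : R3) : q (t • x) = t • q x := by
  funext i
  show tet i ⬝ᵥ (t • x) = t * (tet i ⬝ᵥ x)
  rw [dotProduct_smul, smul_eq_mul]

lemma q_add (x y : R3) : q (x + y) = q x + q y := by
  funext i
  show tet i ⬝ᵥ (x + y) = tet i ⬝ᵥ x + tet i ⬝ᵥ y
  rw [dotProduct_add]

/-- the symmetry which permutes the coordinates -/
noncomputable def act (σ : Equiv.Perm (Fin 4)) : Matrix (Fin 3) (Fin 3) ℝ :=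
  Matrix.of fun a b => (1 / 4) * ∑ i, tet i a * tet (σ i) b

lemma act_apply (σ : Equiv.Perm (Fin 4)) (x : R3) (a : Fin 3) :
    (act σ *ᵥ x) a = (1 / 4) * ∑ i, tet i a * q x (σ i) := by
  show ∑ b, ((1 / 4) * ∑ i, tet i a * tet (σ i) b) * x b = _
  have h1 : ∀ b, ((1 / 4) * ∑ i, tet i a * tet (σ i) b) * x b =
      (1 / 4) * ∑ i, tet i a * (tet (σ i) b * x b) := by
    intro b
    rw [mul_assoc, Finset.sum_mul]
    congr 1
    apply Finset.sum_congr rfl
    intro i _
    ring
  simp only [h1]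
  rw [← Finset.mul_sum, Finset.sum_comm]
  congr 1
  apply Finset.sum_congr rfl
  intro i _
  rw [← Finset.mul_sum]
  rfl

lemma q_act (σ : Equiv.Perm (Fin 4)) (x : R3) : q (act σ *ᵥ x) = q x ∘ σ := by
  have hs : ∑ i, q x (σ i) = 0 := by
    rw [Equiv.sum_comp σ (q x)]; exact q_sum x
  rw [Fin.sum_univ_four] at hs
  have h : ∀ a, (act σ *ᵥ x) a = (1 / 4) * ∑ i, tet i a * q x (σ i) := act_apply σ x
  funext j
  show q (act σ *ᵥ x) j = q x (σ j)
  have a0 : (act σ *ᵥ x) 0 = (1 / 4) * (q x (σ 0) + q x (σ 1) - q x (σ 2) - q x (σ 3)) := by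
    rw [h, Fin.sum_univ_four, tet0, tet1, tet2, tet3]
    simp
    ring
  have a1 : (act σ *ᵥ x) 1 = (1 / 4) * (q x (σ 0) - q x (σ 1) + q x (σ 2) - q x (σ 3)) := by
    rw [h, Fin.sum_univ_four, tet0, tet1, tet2, tet3]
    simp
    ring
  have a2 : (act σ *ᵥ x) 2 = (1 / 4) * (q x (σ 0) - q x (σ 1) - q x (σ 2) + q x (σ 3)) := by
    rw [h, Fin.sum_univ_four, tet0, tet1, tet2, tet3]
    simp
    ring
  fin_cases j
  · show q (act σ *ᵥ x) 0 = q x (σ 0)
    rw [q0, a0, a1, a2]; linarith
  · show q (act σ *ᵥ x) 1 = q x (σ 1)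
    rw [q1, a0, a1, a2]; linarith
  · show q (act σ *ᵥ x) 2 = q x (σ 2)
    rw [q2, a0, a1, a2]; linarith
  · show q (act σ *ᵥ x) 3 = q x (σ 3)
    rw [q3, a0, a1, a2]; linarith

lemma act_dot (σ : Equiv.Perm (Fin 4)) (x y : R3) : (act σ *ᵥ x) ⬝ᵥ (act σ *ᵥ y) = x ⬝ᵥ y := by
  have h1 := q_inner (act σ *ᵥ x) (act σ *ᵥ y)
  rw [q_act, q_act] at h1
  have h2 : ∑ i, (q x ∘ σ) i * (q y ∘ σ) i = ∑ i, q x i * q y i :=
    Equiv.sum_comp σ (fun i => q x i * q y i)
  rw [h2, q_inner] at h1
  linarith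

lemma act_orth (σ : Equiv.Perm (Fin 4)) : act σ ∈ Matrix.orthogonalGroup (Fin 3) ℝ := by
  rw [mem_orthogonalGroup_iff']
  ext a b
  have h := act_dot σ (Pi.single a 1) (Pi.single b 1)
  rw [mulVec_single_one, mulVec_single_one] at h
  have h1 : ((act σ)ᵀ * act σ) a b = (act σ).col a ⬝ᵥ (act σ).col b := rfl
  rw [h1, h, single_one_dotProduct, one_apply, Pi.single_apply]

lemma q_tet (i j : Fin 4) : q (tet i) j = if j = i then 3 else -1 := by
  have h : q (tet i) j = (dotZ (tetZ j) (tetZ i) : ℝ) := toR_dot _ _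
  have h2 : dotZ (tetZ j) (tetZ i) = if j = i then 3 else -1 := by
    clear h
    revert i j; decide +kernel
  rw [h, h2]
  split_ifs <;> norm_num

lemma act_tet (σ : Equiv.Perm (Fin 4)) (i : Fin 4) : act σ *ᵥ tet (σ i) = tet i := by
  apply q_injective
  rw [q_act]
  funext j
  show q (tet (σ i)) (σ j) = q (tet i) j
  rw [q_tet, q_tet]
  simp

lemma act_mem (σ : Equiv.Perm (Fin 4)) : act σ ∈ That := by
  refine ⟨act_orth σ, ?_⟩
  apply Subset.antisymm
  · rintro _ ⟨_, ⟨i, rfl⟩, rfl⟩
    refine ⟨σ⁻¹ i, ?_⟩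
    have := act_tet σ (σ⁻¹ i)
    rw [show σ (σ⁻¹ i) = i by simp] at this
    exact this.symm
  · rintro _ ⟨i, rfl⟩
    exact ⟨tet (σ i), ⟨σ i, rfl⟩, act_tet σ i⟩

/-- the linear equivalence -/
noncomputable def actE (σ : Equiv.Perm (Fin 4)) : R3 ≃ₗ[ℝ] R3 :=
  LinearEquiv.ofLinearMap (Matrix.mulVecLin (act σ)) (Matrix.mulVecLin (act σ⁻¹))
    (by
      apply LinearMap.ext
      intro x
      apply q_injective
      show q (act σ *ᵥ (act σ⁻¹ *ᵥ x)) = q x
      rw [q_act, q_act]
      funext i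
      show q x (σ⁻¹ (σ i)) = q x i
      simp)
    (by
      apply LinearMap.ext
      intro x
      apply q_injective
      show q (act σ⁻¹ *ᵥ (act σ *ᵥ x)) = q x
      rw [q_act, q_act]
      funext i
      show q x (σ (σ⁻¹ i)) = q x i
      simp)

/-! #### Two-valued vectors -/

/-- `w` takes at most one positive and at most one nonpositive value -/
def TV (w : Fin 4 → ℝ) : Prop :=
  (∀ i j, 0 < w i → 0 < w j → w i = w j) ∧ (∀ i j, w i ≤ 0 → w j ≤ 0 → w i = w j)

/-- the set of the indices of positive coordinates -/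
noncomputable def K (w : Fin 4 → ℝ) : Finset (Fin 4) := Finset.univ.filter (fun i => 0 < w i)

lemma mem_K {w : Fin 4 → ℝ} {i : Fin 4} : i ∈ K w ↔ 0 < w i := by simp [K]

lemma K_nonempty {w : Fin 4 → ℝ} (hs : ∑ i, w i = 0) (hne : w ≠ 0) : (K w).Nonempty := by
  by_contra hcon
  rw [Finset.not_nonempty_iff_eq_empty] at hcon
  have h1 : ∀ i, w i ≤ 0 := by
    intro i
    by_contra h
    push Not at h
    have := mem_K.mpr h
    rw [hcon] at this
    exact absurd this (Finset.notMem_empty i)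
  apply hne
  have h2 := (Finset.sum_eq_zero_iff_of_nonpos (fun i _ => h1 i)).mp hs
  funext i
  exact h2 i (Finset.mem_univ i)

lemma K_ne_univ {w : Fin 4 → ℝ} (hs : ∑ i, w i = 0) : K w ≠ Finset.univ := by
  intro h
  have h1 : ∀ i, 0 < w i := fun i => mem_K.mp (by rw [h]; exact Finset.mem_univ i)
  have : 0 < ∑ i, w i := Finset.sum_pos (fun i _ => h1 i) ⟨0, Finset.mem_univ 0⟩
  linarith

lemma TV_prop {w w' : Fin 4 → ℝ} (hw : TV w) (hw' : TV w') (hs : ∑ i, w i = 0)
    (hs' : ∑ i, w' i = 0) (hne : w ≠ 0) (hK : K w = K w') : ∃ t : ℝ, 0 < t ∧ w' = t • w := by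
  obtain ⟨i0, hi0⟩ := K_nonempty hs hne
  have h0 := mem_K.mp hi0
  have h0' : 0 < w' i0 := mem_K.mp (hK ▸ hi0)
  refine ⟨w' i0 / w i0, div_pos h0' h0, ?_⟩
  set t := w' i0 / w i0 with ht
  have hpos : ∀ i, 0 < w i → w' i - t * w i = 0 := by
    intro i hi
    have hi' : 0 < w' i := mem_K.mp (hK ▸ mem_K.mpr hi)
    rw [hw.1 i i0 hi h0, hw'.1 i i0 hi' h0', ht, div_mul_cancel₀ _ h0.ne', sub_self]
  have hneg : ∀ i j, w i ≤ 0 → w j ≤ 0 → w' i - t * w i = w' j - t * w j := by
    intro i j hi hj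
    have hK' : ∀ k, w k ≤ 0 → w' k ≤ 0 := by
      intro k hk
      by_contra h
      push Not at h
      have := mem_K.mp (hK ▸ mem_K.mpr h : k ∈ K w)
      linarith
    rw [hw.2 i j hi hj, hw'.2 i j (hK' i hi) (hK' j hj)]
  funext i
  show w' i = t * w i
  rcases lt_or_ge 0 (w i) with hi | hi
  · have := hpos i hi; linarith
  · have hsum : ∑ j, (w' j - t * w j) = 0 := by
      rw [Finset.sum_sub_distrib, ← Finset.mul_sum, hs, hs', mul_zero, sub_zero]
    have hsum2 : ∑ j, (w' j - t * w j) = ∑ j ∈ Finset.univ.filter (fun j => w j ≤ 0),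
        (w' i - t * w i) := by
      rw [← Finset.sum_filter_add_sum_filter_not Finset.univ (fun j => w j ≤ 0)]
      have h1 : ∑ j ∈ Finset.univ.filter (fun j => ¬ w j ≤ 0), (w' j - t * w j) = 0 := by
        apply Finset.sum_eq_zero
        intro j hj
        rw [Finset.mem_filter] at hj
        exact hpos j (lt_of_not_ge hj.2)
      rw [h1, add_zero]
      apply Finset.sum_congr rfl
      intro j hj
      rw [Finset.mem_filter] at hj
      exact hneg j i hj.2 hi
    rw [hsum2, Finset.sum_const, nsmul_eq_mul] at hsum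
    have hcard : 0 < (Finset.univ.filter (fun j => w j ≤ 0)).card := by
      rw [Finset.card_pos]
      exact ⟨i, by simp [hi]⟩
    have hcard' : ((Finset.univ.filter (fun j => w j ≤ 0)).card : ℝ) ≠ 0 := by positivity
    rcases mul_eq_zero.mp hsum with h | h
    · exact absurd h hcard'
    · linarith

/-- sorted vector with at most one strict step -/
lemma TV_of_sorted {w : Fin 4 → ℝ} (hs : ∑ i, w i = 0) (s : Equiv.Perm (Fin 4))
    (h01 : w (s 0) ≤ w (s 1)) (h12 : w (s 1) ≤ w (s 2)) (h23 : w (s 2) ≤ w (s 3))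
    (h : (w (s 0) = w (s 1) ∧ w (s 1) = w (s 2)) ∨ (w (s 0) = w (s 1) ∧ w (s 2) = w (s 3)) ∨
      (w (s 1) = w (s 2) ∧ w (s 2) = w (s 3))) : TV w := by
  have hs' : w (s 0) + w (s 1) + w (s 2) + w (s 3) = 0 := by
    rw [← Fin.sum_univ_four (fun i => w (s i)), Equiv.sum_comp s w]; exact hs
  have hval : ∀ i, w i = w (s 0) ∨ w i = w (s 3) := by
    intro i
    have hi : ∃ k, s k = i := s.surjective i
    obtain ⟨k, rfl⟩ := hi
    rcases h with ⟨a, b⟩ | ⟨a, b⟩ | ⟨a, b⟩
    · fin_cases k
      · left; rfl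
      · left; exact a.symm
      · left; exact (a.trans b).symm
      · right; rfl
    · fin_cases k
      · left; rfl
      · left; exact a.symm
      · right; exact b
      · right; rfl
    · fin_cases k
      · left; rfl
      · right; exact a.trans b
      · right; exact b
      · right; rfl
  have hlo : w (s 0) ≤ 0 := by linarith
  have hhi : 0 ≤ w (s 3) := by linarith
  have hz : w (s 3) = 0 → w (s 0) = 0 := by intro h3; linarith
  constructor
  · intro i j hi hj
    rcases hval i with h1 | h1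
    · rw [h1] at hi; linarith
    · rcases hval j with h2 | h2
      · rw [h2] at hj; linarith
      · rw [h1, h2]
  · intro i j hi hj
    have aux : ∀ i, w i ≤ 0 → w i = w (s 0) := by
      intro i hi
      rcases hval i with h1 | h1
      · exact h1
      · have : w (s 3) = 0 := le_antisymm (by rw [← h1]; exact hi) hhi
        rw [h1, this, hz this]
    rw [aux i hi, aux j hj]

lemma mono_iff (u : Fin 4 → ℝ) : Monotone u ↔ u 0 ≤ u 1 ∧ u 1 ≤ u 2 ∧ u 2 ≤ u 3 := by
  rw [Fin.monotone_iff_le_succ]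
  constructor
  · intro h
    exact ⟨h 0, h 1, h 2⟩
  · rintro ⟨h0, h1, h2⟩ i
    fin_cases i
    · exact h0
    · exact h1
    · exact h2

lemma mono_unique {u : Fin 4 → ℝ} (hu : Monotone u) {σ : Equiv.Perm (Fin 4)}
    (h : Monotone (u ∘ σ)) : u ∘ σ = u := by
  have h1 : Monotone (u ∘ (1 : Equiv.Perm (Fin 4))) := by simpa using hu
  have := Tuple.unique_monotone h h1
  simpa using this

/-- swapping decreases the scalar product -/
lemma swap_ineq (ν p : Fin 4 → ℝ) (i j : Fin 4) (hν : ν i < ν j) (hp : p j < p i) :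
    ∑ k, ν k * p k < ∑ k, ν k * (p ∘ Equiv.swap i j) k := by
  have hij : i ≠ j := by rintro rfl; exact lt_irrefl _ hν
  have key : ∑ k, (ν k * (p ∘ Equiv.swap i j) k - ν k * p k) = (ν j - ν i) * (p i - p j) := by
    have h1 : ∀ k, k ∉ ({i, j} : Finset (Fin 4)) →
        ν k * (p ∘ Equiv.swap i j) k - ν k * p k = 0 := by
      intro k hk
      simp only [Finset.mem_insert, Finset.mem_singleton, not_or] at hk
      show ν k * p (Equiv.swap i j k) - ν k * p k = 0
      rw [Equiv.swap_apply_of_ne_of_ne hk.1 hk.2, sub_self]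
    rw [← Finset.sum_subset (Finset.subset_univ ({i, j} : Finset (Fin 4))) (fun k _ hk => h1 k hk),
      Finset.sum_pair hij]
    show ν i * p (Equiv.swap i j i) - ν i * p i + (ν j * p (Equiv.swap i j j) - ν j * p j) = _
    rw [Equiv.swap_apply_left, Equiv.swap_apply_right]
    ring
  rw [Finset.sum_sub_distrib] at key
  nlinarith [mul_pos (sub_pos.mpr hν) (sub_pos.mpr hp)]

/-! #### The main argument -/

lemma exists_perm : ∀ B B' : Finset (Fin 4), B.card = B'.card →
    ∃ σ : Equiv.Perm (Fin 4), ∀ i, i ∈ B ↔ σ i ∈ B' := by decide +kernel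

lemma level_card : ∀ B : Finset (Fin 4), B.Nonempty → B ≠ Finset.univ →
    (Finset.univ.filter (fun A : Finset (Fin 4) => A.Nonempty ∧ A ≠ Finset.univ ∧
      A.card ≠ B.card)).card ≤ 10 := by decide +kernel

lemma proper_card : (Finset.univ.filter (fun A : Finset (Fin 4) => A.Nonempty ∧
    A ≠ Finset.univ)).card = 14 := by decide +kernel

theorem not_mem_That : ((12, 20) : ℕ × ℕ) ∉ F That := by
  classical
  rintro ⟨P, hP, hsym, hv, hf⟩
  simp only at hv hf
  obtain ⟨-, -, hPr⟩ := hP.isPolytope.exists_family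
  set V := P.extremePoints ℝ with hV
  have hPV : P = convexHull ℝ V := by
    rw [hPr]; congr 1; exact Subtype.range_coe
  have hVP : V ⊆ P := extremePoints_subset
  have hconv : Convex ℝ P := by rw [hPV]; exact convex_convexHull ℝ V
  have hVfin : V.Finite := finite_of_ncard_ne_zero (by rw [hv]; norm_num)
  -- the symmetries permute the vertices
  have hact : ∀ σ, ∀ x ∈ P, act σ *ᵥ x ∈ P := by
    intro σ x hx
    have := hsym (act σ) (act_mem σ)
    rw [← this]
    exact ⟨x, hx, rfl⟩
  have hVact : ∀ σ, ∀ x ∈ V, act σ *ᵥ x ∈ V := by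
    intro σ x hx
    have h1 := image_extremePoints (actE σ) P (𝕜 := ℝ)
    have h2 : (actE σ) '' P = P := hsym (act σ) (act_mem σ)
    rw [h2] at h1
    rw [hV, ← h1]
    exact ⟨x, hx, rfl⟩
  set W : Set (Fin 4 → ℝ) := q '' V with hW
  have hWc : W.ncard = 12 := by rw [hW, q_injective.injOn.ncard_image, hv]
  have hWfin : W.Finite := hVfin.image _
  have hWact : ∀ w ∈ W, ∀ σ : Equiv.Perm (Fin 4), w ∘ σ ∈ W := by
    rintro _ ⟨x, hx, rfl⟩ σ
    exact ⟨act σ *ᵥ x, hVact σ x hx, q_act σ x⟩
  have hWsum : ∀ w ∈ W, ∑ i, w i = 0 := by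
    rintro _ ⟨x, _, rfl⟩; exact q_sum x
  -- the origin lies in P
  have hPne : P.Nonempty := hP.2.mono interior_subset
  have hzero : (0 : R3) ∈ P := by
    obtain ⟨x, hx⟩ := hPne
    have key : (0 : R3) = ∑ i : Fin 4, (1 / 4 : ℝ) • (act ((finRotate 4) ^ (i : ℕ)) *ᵥ x) := by
      apply q_injective
      have hq0 : q 0 = 0 := by funext i; show tet i ⬝ᵥ 0 = 0; simp
      rw [hq0]
      rw [Fin.sum_univ_four, q_add, q_add, q_add, q_smul, q_smul, q_smul, q_smul, q_act, q_act,
        q_act, q_act]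
      have hs := q_sum x
      rw [Fin.sum_univ_four] at hs
      funext j
      have e : ∀ j : Fin 4, (((finRotate 4) ^ 0) j = j) ∧ (((finRotate 4) ^ 1) j = j + 1) ∧
          (((finRotate 4) ^ 2) j = j + 2) ∧ (((finRotate 4) ^ 3) j = j + 3) := by decide +kernel
      show (0 : ℝ) = (1 / 4) * q x (((finRotate 4) ^ 0) j) + (1 / 4) * q x (((finRotate 4) ^ 1) j) +
        (1 / 4) * q x (((finRotate 4) ^ 2) j) + (1 / 4) * q x (((finRotate 4) ^ 3) j)
      rw [(e j).1, (e j).2.1, (e j).2.2.1, (e j).2.2.2]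
      fin_cases j
      · show (0 : ℝ) = (1 / 4) * q x 0 + (1 / 4) * q x 1 + (1 / 4) * q x 2 + (1 / 4) * q x 3
        linarith
      · show (0 : ℝ) = (1 / 4) * q x 1 + (1 / 4) * q x 2 + (1 / 4) * q x 3 + (1 / 4) * q x 0
        linarith
      · show (0 : ℝ) = (1 / 4) * q x 2 + (1 / 4) * q x 3 + (1 / 4) * q x 0 + (1 / 4) * q x 1
        linarith
      · show (0 : ℝ) = (1 / 4) * q x 3 + (1 / 4) * q x 0 + (1 / 4) * q x 1 + (1 / 4) * q x 2
        linarith
    rw [key]
    apply hconv.sum_mem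
    · intro i _; norm_num
    · simp
    · intro i _; exact hact _ x hx
  -- two vertices are not on a common ray
  have hray : ∀ w ∈ W, ∀ w' ∈ W, ∀ t : ℝ, 0 < t → w' = t • w → w' = w := by
    have aux : ∀ x ∈ V, ∀ y ∈ V, ∀ t : ℝ, 0 < t → t < 1 → y = t • x → y = x := by
      intro x hx y hy t ht0 ht1 hxy
      have h1 := (mem_extremePoints.mp hy).2 0 hzero x (hVP hx) ⟨1 - t, t, by linarith, ht0, by ring, by
        rw [smul_zero, zero_add, hxy]⟩
      exact h1.2.symm
    rintro _ ⟨x, hx, rfl⟩ _ ⟨y, hy, rfl⟩ t ht0 hxy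
    have hxy' : y = t • x := q_injective (by rw [hxy, q_smul])
    rcases lt_trichotomy t 1 with h | h | h
    · rw [aux x hx y hy t ht0 h hxy']
    · rw [hxy, h, one_smul]
    · have h2 : x = t⁻¹ • y := by rw [hxy', smul_smul, inv_mul_cancel₀ ht0.ne', one_smul]
      rw [aux y hy x hx t⁻¹ (inv_pos.mpr ht0) (inv_lt_one_of_one_lt₀ h) h2]
  have hWne : ∀ w ∈ W, w ≠ 0 := by
    -- otherwise the origin is a vertex
    rintro _ ⟨x, hx, rfl⟩ h0
    have hq0 : q 0 = 0 := by funext i; show tet i ⬝ᵥ 0 = 0; simp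
    have hx0 : x = 0 := q_injective (by rw [h0, hq0])
    subst hx0
    -- take another vertex
    obtain ⟨y, hy, hy0⟩ : ∃ y ∈ V, y ≠ 0 := by
      by_contra hcon
      push Not at hcon
      have : V ⊆ {0} := fun y hy => hcon y hy
      have := ncard_le_ncard this (finite_singleton 0)
      rw [hv, ncard_singleton] at this
      omega
    -- the origin is the average of the images of y
    have h3 : (-(1 / 3 : ℝ)) • y ∈ P := by
      have key : (-(1 / 3 : ℝ)) • y = ∑ i : Fin 3, (1 / 3 : ℝ) •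
          (act ((finRotate 4) ^ ((i : ℕ) + 1)) *ᵥ y) := by
        apply q_injective
        rw [Fin.sum_univ_three, q_add, q_add, q_smul, q_smul, q_smul, q_smul, q_act, q_act, q_act]
        have hs := q_sum y
        rw [Fin.sum_univ_four] at hs
        funext j
        have e : ∀ j : Fin 4, (((finRotate 4) ^ 1) j = j + 1) ∧
            (((finRotate 4) ^ 2) j = j + 2) ∧ (((finRotate 4) ^ 3) j = j + 3) := by decide +kernel
        show -(1 / 3 : ℝ) * q y j = (1 / 3) * q y (((finRotate 4) ^ 1) j) +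
          (1 / 3) * q y (((finRotate 4) ^ 2) j) + (1 / 3) * q y (((finRotate 4) ^ 3) j)
        rw [(e j).1, (e j).2.1, (e j).2.2]
        fin_cases j
        · show -(1 / 3 : ℝ) * q y 0 = (1 / 3) * q y 1 + (1 / 3) * q y 2 + (1 / 3) * q y 3
          linarith
        · show -(1 / 3 : ℝ) * q y 1 = (1 / 3) * q y 2 + (1 / 3) * q y 3 + (1 / 3) * q y 0
          linarith
        · show -(1 / 3 : ℝ) * q y 2 = (1 / 3) * q y 3 + (1 / 3) * q y 0 + (1 / 3) * q y 1
          linarith
        · show -(1 / 3 : ℝ) * q y 3 = (1 / 3) * q y 0 + (1 / 3) * q y 1 + (1 / 3) * q y 2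
          linarith
      rw [key]
      apply hconv.sum_mem
      · intro i _; norm_num
      · simp
      · intro i _; exact hact _ y (hVP hy)
    have h4 := (mem_extremePoints.mp hx).2 y (hVP hy) _ h3 ⟨1 / 4, 3 / 4, by norm_num, by norm_num,
      by norm_num, by rw [smul_smul]; module⟩
    exact hy0 h4.1
  -- Case: all vertices are two-valued
  by_cases hall : ∀ w ∈ W, TV w
  · have hinj : InjOn K W := by
      intro w hw w' hw' hK
      obtain ⟨t, ht, htw⟩ := TV_prop (hall w hw) (hall w' hw') (hWsum w hw) (hWsum w' hw')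
        (hWne w hw) hK
      exact (hray w hw w' hw' t ht htw).symm
    set A : Finset (Finset (Fin 4)) := (hWfin.image K).toFinset with hA
    have hAc : A.card = 12 := by
      rw [hA, ← ncard_eq_toFinset_card, hinj.ncard_image, hWc]
    have hAmem : ∀ B, B ∈ A ↔ ∃ w ∈ W, K w = B := by
      intro B
      rw [hA, Finite.mem_toFinset]
      rfl
    have hAprop : ∀ B ∈ A, B.Nonempty ∧ B ≠ Finset.univ := by
      intro B hB
      obtain ⟨w, hw, rfl⟩ := (hAmem B).mp hB
      exact ⟨K_nonempty (hWsum w hw) (hWne w hw), K_ne_univ (hWsum w hw)⟩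
    obtain ⟨B, hB, hBA⟩ : ∃ B ∈ Finset.univ.filter (fun A : Finset (Fin 4) => A.Nonempty ∧
        A ≠ Finset.univ), B ∉ A := by
      by_contra hcon
      push Not at hcon
      have := Finset.card_le_card (show (Finset.univ.filter (fun A : Finset (Fin 4) =>
        A.Nonempty ∧ A ≠ Finset.univ)) ⊆ A from fun B hB => hcon B hB)
      rw [proper_card, hAc] at this
      omega
    rw [Finset.mem_filter] at hB
    have hsub : A ⊆ Finset.univ.filter (fun A : Finset (Fin 4) => A.Nonempty ∧ A ≠ Finset.univ ∧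
        A.card ≠ B.card) := by
      intro B' hB'
      rw [Finset.mem_filter]
      refine ⟨Finset.mem_univ _, (hAprop B' hB').1, (hAprop B' hB').2, ?_⟩
      intro hcard
      apply hBA
      obtain ⟨w, hw, rfl⟩ := (hAmem B').mp hB'
      obtain ⟨σ, hσ⟩ := exists_perm B (K w) hcard.symm
      rw [hAmem]
      refine ⟨w ∘ σ, hWact w hw σ, ?_⟩
      ext i
      rw [hσ i, mem_K, mem_K]
      rfl
    have := (Finset.card_le_card hsub).trans (level_card B hB.2.1 hB.2.2)
    omega
  -- Case: some vertex is not two-valued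
  · push Not at hall
    obtain ⟨w, hw, hwTV⟩ := hall
    set u : Fin 4 → ℝ := w ∘ Tuple.sort w with hu
    have huW : u ∈ W := hWact w hw _
    have humono : Monotone u := Tuple.monotone_sort w
    obtain ⟨m01, m12, m23⟩ := (mono_iff u).mp humono
    have hus : ¬ ((u 0 = u 1 ∧ u 1 = u 2) ∨ (u 0 = u 1 ∧ u 2 = u 3) ∨ (u 1 = u 2 ∧ u 2 = u 3)) := by
      intro h
      exact hwTV (TV_of_sorted (hWsum w hw) (Tuple.sort w) m01 m12 m23 h)
    -- not injective
    have hninj : ¬ Function.Injective u := by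
      intro hinj
      have h1 : Function.Injective (fun σ : Equiv.Perm (Fin 4) => u ∘ σ) := by
        intro σ τ h
        ext1 i
        exact hinj (congrFun h i)
      have h2 : range (fun σ : Equiv.Perm (Fin 4) => u ∘ σ) ⊆ W := by
        rintro _ ⟨σ, rfl⟩; exact hWact u huW σ
      have h3 := ncard_le_ncard h2 hWfin
      rw [hWc, ← image_univ, h1.injOn.ncard_image, ncard_univ, Nat.card_eq_fintype_card,
        Fintype.card_perm, Fintype.card_fin] at h3
      norm_num [Nat.factorial] at h3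
    -- the unique equal pair
    obtain ⟨i0, j0, hij0, hu0, hupair⟩ : ∃ i0 j0 : Fin 4, i0 ≠ j0 ∧ u i0 = u j0 ∧
        ∀ a b, u a = u b → a = b ∨ (a = i0 ∧ b = j0) ∨ (a = j0 ∧ b = i0) := by
      have tri : u 0 = u 1 ∨ u 1 = u 2 ∨ u 2 = u 3 := by
        by_contra hcon
        push Not at hcon
        obtain ⟨c1, c2, c3⟩ := hcon
        have d1 := lt_of_le_of_ne m01 c1
        have d2 := lt_of_le_of_ne m12 c2
        have d3 := lt_of_le_of_ne m23 c3
        apply hninj
        have hst : StrictMono u := by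
          rw [Fin.strictMono_iff_lt_succ]
          intro i
          fin_cases i
          · exact d1
          · exact d2
          · exact d3
        exact hst.injective
      rcases tri with h | h | h
      · have d2 : u 1 < u 2 := lt_of_le_of_ne m12 (fun h' => hus (Or.inl ⟨h, h'⟩))
        have d3 : u 2 < u 3 := lt_of_le_of_ne m23 (fun h' => hus (Or.inr (Or.inl ⟨h, h'⟩)))
        refine ⟨0, 1, by decide, h, ?_⟩
        intro a b hab
        fin_cases a <;> fin_cases b <;> simp at hab ⊢ <;> linarith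
      · have d1 : u 0 < u 1 := lt_of_le_of_ne m01 (fun h' => hus (Or.inl ⟨h', h⟩))
        have d3 : u 2 < u 3 := lt_of_le_of_ne m23 (fun h' => hus (Or.inr (Or.inr ⟨h, h'⟩)))
        refine ⟨1, 2, by decide, h, ?_⟩
        intro a b hab
        fin_cases a <;> fin_cases b <;> simp at hab ⊢ <;> linarith
      · have d1 : u 0 < u 1 := lt_of_le_of_ne m01 (fun h' => hus (Or.inr (Or.inl ⟨h', h⟩)))
        have d2 : u 1 < u 2 := lt_of_le_of_ne m12 (fun h' => hus (Or.inr (Or.inr ⟨h', h⟩)))
        refine ⟨2, 3, by decide, h, ?_⟩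
        intro a b hab
        fin_cases a <;> fin_cases b <;> simp at hab ⊢ <;> linarith
    -- all vertices are rearrangements of u
    have hWall : ∀ v ∈ W, ∃ σ : Equiv.Perm (Fin 4), v = u ∘ σ := by
      have h1 : Function.Injective (fun σ : alternatingGroup (Fin 4) => u ∘ (σ : Equiv.Perm (Fin 4))) := by
        rintro ⟨σ, hσ⟩ ⟨τ, hτ⟩ h
        apply Subtype.ext
        show σ = τ
        have hπ : ∀ k, u ((σ * τ⁻¹) k) = u k := by
          intro k
          have := congrFun h (τ⁻¹ k)
          have h2 : u (σ (τ⁻¹ k)) = u (τ (τ⁻¹ k)) := this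
          rw [show τ (τ⁻¹ k) = k by simp] at h2
          exact h2
        have heven : σ * τ⁻¹ ∈ alternatingGroup (Fin 4) := mul_mem hσ (inv_mem hτ)
        set π := σ * τ⁻¹ with hπd
        suffices π = 1 by
          rw [hπd, mul_inv_eq_one] at this
          exact this
        have hfix : ∀ k, k ≠ i0 → k ≠ j0 → π k = k := by
          intro k hk1 hk2
          rcases hupair _ _ (hπ k) with h3 | ⟨_, h3⟩ | ⟨_, h3⟩
          · exact h3
          · exact absurd h3 hk2
          · exact absurd h3 hk1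
        by_cases hi : π i0 = i0
        · have hj : π j0 = j0 := by
            rcases hupair _ _ (hπ j0) with h3 | ⟨h3, _⟩ | ⟨h3, _⟩
            · exact h3
            · exact absurd (π.injective (h3.trans hi.symm)) hij0.symm
            · exact h3
          ext1 k
          by_cases hk1 : k = i0
          · rw [hk1, hi]; rfl
          · by_cases hk2 : k = j0
            · rw [hk2, hj]; rfl
            · rw [hfix k hk1 hk2]; rfl
        · exfalso
          have hi' : π i0 = j0 := by
            rcases hupair _ _ (hπ i0) with h3 | ⟨h3, _⟩ | ⟨h3, _⟩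
            · exact absurd h3 hi
            · exact absurd h3 hi
            · exact h3
          have hj' : π j0 = i0 := by
            rcases hupair _ _ (hπ j0) with h3 | ⟨h3, _⟩ | ⟨h3, _⟩
            · exact absurd (π.injective (hi'.trans h3.symm)) hij0
            · exact h3
            · exact absurd (π.injective (hi'.trans h3.symm)) hij0
          have hsw : π = Equiv.swap i0 j0 := by
            ext1 k
            by_cases hk1 : k = i0
            · rw [hk1, hi', Equiv.swap_apply_left]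
            · by_cases hk2 : k = j0
              · rw [hk2, hj', Equiv.swap_apply_right]
              · rw [hfix k hk1 hk2, Equiv.swap_apply_of_ne_of_ne hk1 hk2]
          rw [hsw, Equiv.Perm.mem_alternatingGroup, Equiv.Perm.sign_swap hij0] at heven
          exact absurd heven (by decide)
      have h2 : range (fun σ : alternatingGroup (Fin 4) => u ∘ (σ : Equiv.Perm (Fin 4))) ⊆ W := by
        rintro _ ⟨σ, rfl⟩; exact hWact u huW σ
      have h3 : (range (fun σ : alternatingGroup (Fin 4) => u ∘ (σ : Equiv.Perm (Fin 4)))).ncard = 12 := by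
        rw [← image_univ, h1.injOn.ncard_image, ncard_univ, nat_card_alternatingGroup,
          Nat.card_eq_fintype_card, Fintype.card_fin]
        norm_num [Nat.factorial]
      have h4 := eq_of_subset_of_ncard_le h2 (by rw [h3, hWc]) hWfin
      intro v hvW
      rw [← h4] at hvW
      obtain ⟨σ, rfl⟩ := hvW
      exact ⟨σ, rfl⟩
    -- the facets
    have hfac : ∀ F ∈ facets P, ∃ n : R3, F = {x | x ∈ P ∧ ∀ y ∈ P, n ⬝ᵥ y ≤ n ⬝ᵥ x} ∧
        q n ≠ 0 ∧ TV (q n) := by
      intro G hG
      obtain ⟨n, c, hle, hGe, x, hx, y, hy, z, hz, hxc, hyc, hzc, hcr⟩ := facet_data hPV hG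
      refine ⟨n, ?_, ?_, ?_⟩
      · rw [hGe]
        ext a
        constructor
        · rintro ⟨h1, h2⟩
          exact ⟨h1, fun b hb => by rw [h2]; exact hle b hb⟩
        · rintro ⟨h1, h2⟩
          refine ⟨h1, le_antisymm (hle a h1) ?_⟩
          rw [← hxc]; exact h2 x (hVP hx)
      · intro hq
        have hn0 : n = 0 := by
          apply q_injective
          rw [hq]
          funext i; show 0 = tet i ⬝ᵥ 0; simp
        have hPG : P ⊆ G := by
          intro a ha
          rw [hGe]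
          refine ⟨ha, ?_⟩
          rw [← hxc, hn0, zero_dotProduct, zero_dotProduct]
        have h1 := Submodule.finrank_mono (vectorSpan_mono ℝ hPG)
        rw [hP.finrank, hG.2] at h1
        omega
      · -- if not two-valued then there are at most two maximisers
        by_contra hTV
        set s := Tuple.sort (q n) with hs
        have hmono : Monotone (q n ∘ s) := Tuple.monotone_sort (q n)
        obtain ⟨n01, n12, n23⟩ := (mono_iff _).mp hmono
        have hns : ¬ ((q n (s 0) = q n (s 1) ∧ q n (s 1) = q n (s 2)) ∨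
            (q n (s 0) = q n (s 1) ∧ q n (s 2) = q n (s 3)) ∨
            (q n (s 1) = q n (s 2) ∧ q n (s 2) = q n (s 3))) := fun h =>
          hTV (TV_of_sorted (q_sum n) s n01 n12 n23 h)
        have hdotq : ∀ a : R3, ∑ k, q n k * q a k = 4 * (n ⬝ᵥ a) := fun a => q_inner n a
        -- maximisers are sorted
        have hstar : ∀ a ∈ V, n ⬝ᵥ a = c → ∀ i j, q n i < q n j → q a i ≤ q a j := by
          intro a ha hac i j hij
          by_contra hcon
          push Not at hcon
          have h1 := swap_ineq (q n) (q a) i j hij hcon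
          rw [← q_act, hdotq, hdotq] at h1
          have h2 := hle _ (hact (Equiv.swap i j) a (hVP ha))
          rw [← hac] at h2
          linarith
        -- two candidates
        have htwo : ∃ τ : Equiv.Perm (Fin 4), ∀ a ∈ V, n ⬝ᵥ a = c →
            q a ∘ s = u ∨ q a ∘ s ∘ τ = u := by
          have hre : ∀ a ∈ V, ∃ σ : Equiv.Perm (Fin 4), q a = u ∘ σ := fun a ha =>
            hWall _ ⟨a, ha, rfl⟩
          have fin1 : ∀ a ∈ V, Monotone (q a ∘ s) → q a ∘ s = u := by
            intro a ha hm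
            obtain ⟨σ, hσ⟩ := hre a ha
            have h1 : q a ∘ s = u ∘ (σ * s : Equiv.Perm (Fin 4)) := by rw [hσ]; rfl
            rw [h1] at hm ⊢
            exact mono_unique humono hm
          have fin2 : ∀ a ∈ V, ∀ τ : Equiv.Perm (Fin 4), Monotone (q a ∘ s ∘ τ) → q a ∘ s ∘ τ = u := by
            intro a ha τ hm
            obtain ⟨σ, hσ⟩ := hre a ha
            have h1 : q a ∘ s ∘ τ = u ∘ (σ * s * τ : Equiv.Perm (Fin 4)) := by rw [hσ]; rfl
            rw [h1] at hm ⊢
            exact mono_unique humono hm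
          by_cases e01 : q n (s 0) = q n (s 1)
          · have d2 : q n (s 1) < q n (s 2) := lt_of_le_of_ne n12 (fun h' => hns (Or.inl ⟨e01, h'⟩))
            have d3 : q n (s 2) < q n (s 3) :=
              lt_of_le_of_ne n23 (fun h' => hns (Or.inr (Or.inl ⟨e01, h'⟩)))
            refine ⟨Equiv.swap 0 1, fun a ha hac => ?_⟩
            have g02 := hstar a ha hac (s 0) (s 2) (by rw [e01]; exact d2)
            have g12 := hstar a ha hac (s 1) (s 2) d2
            have g23 := hstar a ha hac (s 2) (s 3) d3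
            rcases le_total (q a (s 0)) (q a (s 1)) with h | h
            · left; exact fin1 a ha ((mono_iff _).mpr ⟨h, g12, g23⟩)
            · right
              apply fin2 a ha
              rw [mono_iff]
              refine ⟨?_, ?_, ?_⟩
              · exact h
              · exact g02
              · exact g23
          · by_cases e12 : q n (s 1) = q n (s 2)
            · have d1 : q n (s 0) < q n (s 1) := lt_of_le_of_ne n01 e01
              have d3 : q n (s 2) < q n (s 3) :=
                lt_of_le_of_ne n23 (fun h' => hns (Or.inr (Or.inr ⟨e12, h'⟩)))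
              refine ⟨Equiv.swap 1 2, fun a ha hac => ?_⟩
              have g01 := hstar a ha hac (s 0) (s 1) d1
              have g02 := hstar a ha hac (s 0) (s 2) (by rw [← e12]; exact d1)
              have g23 := hstar a ha hac (s 2) (s 3) d3
              have g13 := hstar a ha hac (s 1) (s 3) (by rw [e12]; exact d3)
              rcases le_total (q a (s 1)) (q a (s 2)) with h | h
              · left; exact fin1 a ha ((mono_iff _).mpr ⟨g01, h, g23⟩)
              · right
                apply fin2 a ha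
                rw [mono_iff]
                exact ⟨g02, h, g13⟩
            · have d1 : q n (s 0) < q n (s 1) := lt_of_le_of_ne n01 e01
              have d2 : q n (s 1) < q n (s 2) := lt_of_le_of_ne n12 e12
              refine ⟨Equiv.swap 2 3, fun a ha hac => ?_⟩
              have g01 := hstar a ha hac (s 0) (s 1) d1
              have g12 := hstar a ha hac (s 1) (s 2) d2
              have g13 := hstar a ha hac (s 1) (s 3) (lt_of_lt_of_le d2 n23)
              rcases le_total (q a (s 2)) (q a (s 3)) with h | h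
              · left; exact fin1 a ha ((mono_iff _).mpr ⟨g01, g12, h⟩)
              · right
                apply fin2 a ha
                rw [mono_iff]
                exact ⟨g01, g13, h⟩
        obtain ⟨τ, hτ⟩ := htwo
        have hsame : ∀ a ∈ V, ∀ b ∈ V, n ⬝ᵥ a = c → n ⬝ᵥ b = c →
            ((q a ∘ s = u ∧ q b ∘ s = u) ∨ (q a ∘ s ∘ τ = u ∧ q b ∘ s ∘ τ = u)) → a = b := by
          intro a _ b _ _ _ h
          apply q_injective
          funext i
          rcases h with ⟨h1, h2⟩ | ⟨h1, h2⟩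
          · have h3 := congrFun (h1.trans h2.symm) (s⁻¹ i)
            have h4 : q a (s (s⁻¹ i)) = q b (s (s⁻¹ i)) := h3
            rw [show s (s⁻¹ i) = i by simp] at h4
            exact h4
          · have h3 := congrFun (h1.trans h2.symm) (τ⁻¹ (s⁻¹ i))
            have h4 : q a (s (τ (τ⁻¹ (s⁻¹ i)))) = q b (s (τ (τ⁻¹ (s⁻¹ i)))) := h3
            rw [show τ (τ⁻¹ (s⁻¹ i)) = s⁻¹ i by simp, show s (s⁻¹ i) = i by simp] at h4
            exact h4
        have hxy : x ≠ y := by
          rintro rfl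
          rw [sub_self, map_zero, LinearMap.zero_apply] at hcr
          exact hcr rfl
        have hxz : x ≠ z := by
          rintro rfl
          rw [sub_self, map_zero] at hcr
          exact hcr rfl
        have hyz : y ≠ z := by
          rintro rfl
          rw [cross_self] at hcr
          exact hcr rfl
        rcases hτ x hx hxc with h1 | h1 <;> rcases hτ y hy hyc with h2 | h2 <;>
          rcases hτ z hz hzc with h3 | h3
        · exact hxy (hsame x hx y hy hxc hyc (Or.inl ⟨h1, h2⟩))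
        · exact hxy (hsame x hx y hy hxc hyc (Or.inl ⟨h1, h2⟩))
        · exact hxz (hsame x hx z hz hxc hzc (Or.inl ⟨h1, h3⟩))
        · exact hyz (hsame y hy z hz hyc hzc (Or.inr ⟨h2, h3⟩))
        · exact hyz (hsame y hy z hz hyc hzc (Or.inl ⟨h2, h3⟩))
        · exact hxz (hsame x hx z hz hxc hzc (Or.inr ⟨h1, h3⟩))
        · exact hxy (hsame x hx y hy hxc hyc (Or.inr ⟨h1, h2⟩))
        · exact hxy (hsame x hx y hy hxc hyc (Or.inr ⟨h1, h2⟩))
    -- counting
    choose! nn hnn1 hnn2 hnn3 using hfac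
    have hinj : InjOn (fun G => K (q (nn G))) (facets P) := by
      intro G hG H hH hK
      obtain ⟨t, ht, htw⟩ := TV_prop (hnn3 G hG) (hnn3 H hH) (q_sum _) (q_sum _) (hnn2 G hG) hK
      have h1 : nn H = t • nn G := q_injective (by rw [htw, q_smul])
      rw [hnn1 G hG, hnn1 H hH, h1]
      ext x
      simp only [smul_dotProduct, smul_eq_mul, Set.mem_ofPred_eq, mul_le_mul_iff_right₀ ht]
    have hfacfin : (facets P).ncard ≤ 16 := by
      have h1 := ncard_le_ncard (subset_univ ((fun G => K (q (nn G))) '' facets P)) finite_univ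
      rw [hinj.ncard_image, ncard_univ, Nat.card_eq_fintype_card] at h1
      have h2 : Fintype.card (Finset (Fin 4)) = 16 := by
        rw [Fintype.card_finset, Fintype.card_fin]; norm_num
      rw [h2] at h1
      exact h1
    omega

/-- **`F(T̂) ≠ F(T)`** for the tetrahedron: `(12, 20)` is the f-vector of a 3-polytope symmetric under
the rotation group of the tetrahedron, but of no 3-polytope symmetric under its full symmetry
group. -/
theorem result : ((12, 20) : ℕ × ℕ) ∈ F T ∧ ((12, 20) : ℕ × ℕ) ∉ F That ∧ F That ≠ F T := by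
  refine ⟨mem_T, not_mem_That, ?_⟩
  intro h
  exact not_mem_That (h ▸ mem_T)

end Pool.Agent.Results.MP_52b7e0_co.RotationalTetrahedral
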